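import Mathlib
import Pool.Agent.W61h.LT.Coset
import Pool.Agent.W61h.LT.Affine

/-! # Fixed-point proportions of level-transitive groups

A level-transitive group of automorphisms of the `d`-regular rooted tree has fixed-point proportion
at most `1 - d/(d^2-1)`, and equality is possible exactly when `d` is a prime power. -/

namespace Pool.Agent.Results.MP_80cb54_al.LevelTransitive

open Filter Topology Pool.Agent.W61h.LT

/-- The automorphism group of the rooted tree of the words over the alphabet `X`: the permutations of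
the words which preserve the length and the relation of being an initial segment. -/
def treeAut (X : Type) : Subgroup (Equiv.Perm (List X)) where
  carrier := {g | (∀ v, (g v).length = v.length) ∧ ∀ v w : List X, v <+: w ↔ g v <+: g w}
  mul_mem' := by
    rintro g h ⟨hg, hg'⟩ ⟨hh, hh'⟩
    refine ⟨fun v => ?_, fun v w => ?_⟩
    · rw [Equiv.Perm.mul_apply, hg, hh]
    · rw [Equiv.Perm.mul_apply, Equiv.Perm.mul_apply, ← hg', ← hh']
  one_mem' := ⟨fun _ => rfl, fun _ _ => Iff.rfl⟩
  inv_mem' := by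
    rintro g ⟨hg, hg'⟩
    have h : ∀ v, g (g⁻¹ v) = v := fun v => g.apply_symm_apply v
    refine ⟨fun v => ?_, fun v w => ?_⟩
    · have := hg (g⁻¹ v)
      rw [← this, h]
    · rw [hg' (g⁻¹ v) (g⁻¹ w), h, h]

/-- `G` is level-transitive: it is transitive on the words of each length. -/
def IsLevelTransitive {X : Type} (G : Subgroup (Equiv.Perm (List X))) : Prop :=
  ∀ v w : List X, v.length = w.length → ∃ g ∈ G, g v = w

/-- The action of `g` on the level `n`. -/
def restrictLevel {X : Type} (n : ℕ) (g : Equiv.Perm (List X)) :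
    {v : List X // v.length = n} → List X :=
  fun v => g v

/-- `G_n`: the set of all actions of elements of `G` on the level `n`. -/
def levelGroup {X : Type} (G : Subgroup (Equiv.Perm (List X))) (n : ℕ) :
    Set ({v : List X // v.length = n} → List X) :=
  restrictLevel n '' (G : Set (Equiv.Perm (List X)))

/-- The proportion of the elements of `G_n` which fix a vertex of level `n`. -/
noncomputable def proportion {X : Type} (G : Subgroup (Equiv.Perm (List X))) (n : ℕ) : ℝ :=
  ({f | f ∈ levelGroup G n ∧ ∃ v, f v = v.1}.ncard : ℝ) / (levelGroup G n).ncard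

/-- `FPP(G) = α`: the proportions converge to `α`. -/
def HasFPP {X : Type} (G : Subgroup (Equiv.Perm (List X))) (α : ℝ) : Prop :=
  Tendsto (proportion G) atTop (𝓝 α)

/-! ### the finite groups -/

section tree

variable {X : Type}

instance [Fintype X] (n : ℕ) : Fintype {v : List X // v.length = n} :=
  inferInstanceAs (Fintype (List.Vector X n))

noncomputable instance [Fintype X] (n : ℕ) : Fintype (Equiv.Perm {v : List X // v.length = n}) :=
  Fintype.ofFinite _

theorem take_eq {g : Equiv.Perm (List X)} (hg : g ∈ treeAut X) (v : List X) (i : ℕ) :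
    (g v).take i = g (v.take i) := by
  have h1 : g (v.take i) <+: g v := (hg.2 _ _).1 (List.take_prefix i v)
  have h2 := List.prefix_iff_eq_take.1 h1
  rw [hg.1, List.length_take] at h2
  rw [h2]
  rcases Nat.le_total i v.length with h | h
  · rw [min_eq_left h]
  · rw [min_eq_right h, List.take_of_length_le (by rw [hg.1]; exact h),
      List.take_of_length_le (by rw [hg.1])]

/-- the action on the level `n` -/
def lev (G : Subgroup (Equiv.Perm (List X))) (hG : G ≤ treeAut X) (n : ℕ) :
    G →* Equiv.Perm {v : List X // v.length = n} :=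
  MonoidHom.mk' (fun g => (g : Equiv.Perm (List X)).subtypePerm (p := fun v => v.length = n)
      (fun v => by rw [(hG g.2).1 v]))
    (fun g h => by
      ext v
      rfl)

theorem lev_apply (G : Subgroup (Equiv.Perm (List X))) (hG : G ≤ treeAut X) (n : ℕ) (g : G)
    (v : {v : List X // v.length = n}) : (lev G hG n g v).1 = (g : Equiv.Perm (List X)) v.1 := rfl

/-- the image -/
def Pn (G : Subgroup (Equiv.Perm (List X))) (hG : G ≤ treeAut X) (n : ℕ) :
    Subgroup (Equiv.Perm {v : List X // v.length = n}) := (lev G hG n).range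

theorem take_congr {G : Subgroup (Equiv.Perm (List X))} {hG : G ≤ treeAut X} {n : ℕ}
    {q : Equiv.Perm {v : List X // v.length = n}} (hq : q ∈ Pn G hG n) (i : ℕ)
    {u v : {v : List X // v.length = n}} (h : u.1.take i = v.1.take i) :
    (q u).1.take i = (q v).1.take i := by
  obtain ⟨g, rfl⟩ := hq
  rw [lev_apply, lev_apply, take_eq (hG g.2), take_eq (hG g.2), h]

/-- the stabilizer of the initial segment of length `i` of `v₀` -/
def Kn (G : Subgroup (Equiv.Perm (List X))) (hG : G ≤ treeAut X) (n : ℕ)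
    (v₀ : {v : List X // v.length = n}) (i : ℕ) :
    Subgroup (Equiv.Perm {v : List X // v.length = n}) where
  carrier := {q | q ∈ Pn G hG n ∧ (q v₀).1.take i = v₀.1.take i}
  mul_mem' := by
    rintro q r ⟨hq, hq'⟩ ⟨hr, hr'⟩
    refine ⟨Subgroup.mul_mem _ hq hr, ?_⟩
    rw [Equiv.Perm.mul_apply, take_congr hq i hr', hq']
  one_mem' := ⟨Subgroup.one_mem _, rfl⟩
  inv_mem' := by
    rintro q ⟨hq, hq'⟩
    refine ⟨Subgroup.inv_mem _ hq, ?_⟩
    have := take_congr (Subgroup.inv_mem _ hq) i hq'
    rw [← this]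
    simp

theorem mem_Kn {G : Subgroup (Equiv.Perm (List X))} {hG : G ≤ treeAut X} {n : ℕ}
    {v₀ : {v : List X // v.length = n}} {i : ℕ} {q : Equiv.Perm {v : List X // v.length = n}} :
    q ∈ Kn G hG n v₀ i ↔ q ∈ Pn G hG n ∧ (q v₀).1.take i = v₀.1.take i := Iff.rfl

theorem Kn_anti (G : Subgroup (Equiv.Perm (List X))) (hG : G ≤ treeAut X) (n : ℕ)
    (v₀ : {v : List X // v.length = n}) (i : ℕ) : Kn G hG n v₀ (i + 1) ≤ Kn G hG n v₀ i := by
  rintro q ⟨hq, hq'⟩
  refine ⟨hq, ?_⟩
  have := congrArg (List.take i) hq'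
  rwa [List.take_take, List.take_take, min_eq_left (by omega)] at this

theorem Kn_zero (G : Subgroup (Equiv.Perm (List X))) (hG : G ≤ treeAut X) (n : ℕ)
    (v₀ : {v : List X // v.length = n}) : Kn G hG n v₀ 0 = Pn G hG n := by
  ext q
  rw [mem_Kn]
  simp

theorem exists_apply {G : Subgroup (Equiv.Perm (List X))} {hG : G ≤ treeAut X}
    (hT : IsLevelTransitive G) {n : ℕ} (u v : {v : List X // v.length = n}) :
    ∃ q ∈ Pn G hG n, q u = v := by
  obtain ⟨g, hg, hgu⟩ := hT u.1 v.1 (u.2.trans v.2.symm)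
  exact ⟨lev G hG n ⟨g, hg⟩, ⟨⟨g, hg⟩, rfl⟩, Subtype.ext hgu⟩

variable [Fintype X]

theorem card_Kn (G : Subgroup (Equiv.Perm (List X))) (hG : G ≤ treeAut X) (hT : IsLevelTransitive G)
    (n : ℕ) (v₀ : {v : List X // v.length = n}) (i : ℕ) (hi : i ≤ n) :
    (fs (Pn G hG n)).card = Fintype.card X ^ i * (fs (Kn G hG n v₀ i)).card := by
  classical
  let T : Finset (List X) := (Finset.univ : Finset {v : List X // v.length = i}).image Subtype.val
  have hTc : T.card = Fintype.card X ^ i := by
    rw [Finset.card_image_of_injective _ Subtype.val_injective, Finset.card_univ]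
    exact card_vector i
  rw [Finset.card_eq_sum_card_fiberwise (f := fun q => (q v₀).1.take i) (t := T), ← hTc,
    ← smul_eq_mul, ← Finset.sum_const]
  · refine Finset.sum_congr rfl (fun w hw => ?_)
    rw [Finset.mem_image] at hw
    obtain ⟨w', _, rfl⟩ := hw
    obtain ⟨g, hg, hgw⟩ := hT (v₀.1.take i) w'.1 (by
      rw [List.length_take, v₀.2, w'.2, min_eq_left hi])
    let q₀ := lev G hG n ⟨g, hg⟩
    have hq₀ : q₀ ∈ Pn G hG n := ⟨⟨g, hg⟩, rfl⟩
    have hq₀v : (q₀ v₀).1.take i = w'.1 := by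
      rw [← hgw, ← take_eq (hG hg)]
      rfl
    refine Finset.card_bij' (fun q _ => q₀⁻¹ * q) (fun q _ => q₀ * q) ?_ ?_ ?_ ?_
    · intro q hq
      rw [Finset.mem_filter, mem_fs] at hq
      rw [mem_fs, mem_Kn]
      refine ⟨Subgroup.mul_mem _ (Subgroup.inv_mem _ hq₀) hq.1, ?_⟩
      have h1 : (q v₀).1.take i = (q₀ v₀).1.take i := hq.2.trans hq₀v.symm
      have h2 := take_congr (Subgroup.inv_mem _ hq₀) i h1
      rw [Equiv.Perm.mul_apply, h2]
      simp
    · intro q hq
      rw [mem_fs, mem_Kn] at hq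
      rw [Finset.mem_filter, mem_fs]
      refine ⟨Subgroup.mul_mem _ hq₀ hq.1, ?_⟩
      show ((q₀ * q) v₀).1.take i = w'.1
      rw [Equiv.Perm.mul_apply, take_congr hq₀ i hq.2, hq₀v]
    · intro q _
      exact mul_inv_cancel_left q₀ q
    · intro q _
      exact inv_mul_cancel_left q₀ q
  · intro q _
    rw [Finset.mem_coe, Finset.mem_image]
    exact ⟨⟨(q v₀).1.take i, by rw [List.length_take, (q v₀).2, min_eq_left hi]⟩,
      Finset.mem_univ _, rfl⟩

theorem proportion_eq (G : Subgroup (Equiv.Perm (List X))) (hG : G ≤ treeAut X)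
    (hT : IsLevelTransitive G) (n : ℕ) (v₀ : {v : List X // v.length = n}) :
    proportion G n = ((conjSet (Kn G hG n v₀ 0) (Kn G hG n v₀ n)).card : ℝ) /
      (fs (Kn G hG n v₀ 0)).card := by
  classical
  let Φ : Equiv.Perm {v : List X // v.length = n} → ({v : List X // v.length = n} → List X) :=
    fun q v => (q v).1
  have hΦ : Function.Injective Φ := by
    intro q r h
    apply Equiv.ext
    intro v
    exact Subtype.ext (congrFun h v)
  have h1 : levelGroup G n = Φ '' ((fs (Pn G hG n) : Finset _) : Set _) := by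
    ext f
    constructor
    · rintro ⟨g, hg, rfl⟩
      exact ⟨lev G hG n ⟨g, hg⟩, mem_fs.2 ⟨⟨g, hg⟩, rfl⟩, rfl⟩
    · rintro ⟨q, hq, rfl⟩
      obtain ⟨g, rfl⟩ := mem_fs.1 hq
      exact ⟨g.1, g.2, rfl⟩
  have h2 : {f | f ∈ levelGroup G n ∧ ∃ v, f v = v.1} =
      Φ '' ((conjSet (Kn G hG n v₀ 0) (Kn G hG n v₀ n) : Finset _) : Set _) := by
    ext f
    rw [Set.mem_ofPred_eq, h1]
    have key : ∀ q : Equiv.Perm {v : List X // v.length = n}, q ∈ Pn G hG n →
        ((∃ v, Φ q v = v.1) ↔ ∃ k ∈ Pn G hG n, k⁻¹ * q * k ∈ Kn G hG n v₀ n) := by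
      intro q hq
      have e : ∀ v : {v : List X // v.length = n}, v.1.take n = v.1 := fun v => by
        rw [List.take_of_length_le v.2.le]
      constructor
      · rintro ⟨v, hv⟩
        obtain ⟨k, hk, hkv⟩ := exists_apply (hG := hG) hT v₀ v
        refine ⟨k, hk, ?_, ?_⟩
        · exact Subgroup.mul_mem _ (Subgroup.mul_mem _ (Subgroup.inv_mem _ hk) hq) hk
        · have hv' : q v = v := Subtype.ext hv
          rw [e, e, Equiv.Perm.mul_apply, Equiv.Perm.mul_apply, hkv, hv', ← hkv]
          simp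
      · rintro ⟨k, hk, hk1, hk2⟩
        refine ⟨k v₀, ?_⟩
        rw [e, e] at hk2
        have h3 : (k⁻¹ * q * k) v₀ = v₀ := Subtype.ext hk2
        have h4 : q (k v₀) = k v₀ := by
          have := congrArg k h3
          simpa [Equiv.Perm.mul_apply] using this
        exact congrArg Subtype.val h4
    constructor
    · rintro ⟨⟨q, hq, rfl⟩, hv⟩
      refine ⟨q, ?_, rfl⟩
      have hq' := mem_fs.1 hq
      rw [Finset.mem_coe, mem_conjSet, Kn_zero]
      exact ⟨hq', (key q hq').1 hv⟩
    · rintro ⟨q, hq, rfl⟩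
      rw [Finset.mem_coe, mem_conjSet, Kn_zero] at hq
      exact ⟨⟨q, mem_fs.2 hq.1, rfl⟩, (key q hq.1).2 hq.2⟩
  rw [proportion, h2, Set.ncard_image_of_injective _ hΦ, Set.ncard_coe_finset, h1,
    Set.ncard_image_of_injective _ hΦ, Set.ncard_coe_finset, Kn_zero]

/-- the upper bound -/
noncomputable def ub (d n : ℕ) : ℝ := 1 - ∑ j ∈ Finset.range n, 1 / (d : ℝ) ^ (2 * j + 1)

theorem main_chain (hX : 2 ≤ Fintype.card X) (G : Subgroup (Equiv.Perm (List X)))
    (hG : G ≤ treeAut X) (hT : IsLevelTransitive G) (n : ℕ) :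
    proportion G (n + 1) ≤ ub (Fintype.card X) (n + 1) ∧
      (¬ IsPrimePow (Fintype.card X) → proportion G (n + 1) ≤ ub (Fintype.card X) (n + 1) -
        1 / (Fintype.card X * ((Fintype.card X).factorial : ℝ))) := by
  obtain ⟨d, hd⟩ : ∃ d, Fintype.card X = d := ⟨_, rfl⟩
  rw [hd] at hX ⊢
  obtain ⟨x₀⟩ : Nonempty X := Fintype.card_pos_iff.1 (by omega)
  let v₀ : {v : List X // v.length = n + 1} := ⟨List.replicate (n + 1) x₀, by simp⟩
  have hcards : ∀ i ≤ n, (fs (Kn G hG (n + 1) v₀ i)).card =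
      d * (fs (Kn G hG (n + 1) v₀ (i + 1))).card := by
    intro i hi
    have h1 := card_Kn G hG hT (n + 1) v₀ i (by omega)
    have h2 := card_Kn G hG hT (n + 1) v₀ (i + 1) (by omega)
    rw [hd] at h1 h2
    have h3 : d ^ i * (fs (Kn G hG (n + 1) v₀ i)).card =
        d ^ i * (d * (fs (Kn G hG (n + 1) v₀ (i + 1))).card) := by
      rw [← h1, h2, pow_succ]
      ring
    exact Nat.eq_of_mul_eq_mul_left (by positivity) h3
  have hch := chain_gen d hX n (fun i => Kn G hG (n + 1) v₀ i)
    (fun i _ => Kn_anti G hG (n + 1) v₀ i) hcards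
  rw [proportion_eq G hG hT (n + 1) v₀]
  have hub : ub d (n + 1) = (1 - 1 / (d : ℝ)) -
      ∑ j ∈ Finset.range n, 1 / (d : ℝ) ^ (2 * (j + 1) + 1) := by
    rw [ub, Finset.sum_range_succ']
    simp only [mul_zero, zero_add, pow_one]
    ring
  constructor
  · have h1 := step_top (Kn G hG (n + 1) v₀ n) (Kn G hG (n + 1) v₀ (n + 1))
      (Kn_anti G hG (n + 1) v₀ n) d hX (hcards n le_rfl)
    rw [hub]
    exact hch.trans (by linarith)
  · intro hnp
    have h1 := coset_frac (Kn G hG (n + 1) v₀ n) (Kn G hG (n + 1) v₀ (n + 1))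
      (Kn_anti G hG (n + 1) v₀ n) d hX (hcards n le_rfl) hnp
    rw [hub]
    exact hch.trans (by linarith)

end tree

/-! ### the bound in closed form -/

theorem ub_closed (d : ℕ) (hd : 2 ≤ d) (n : ℕ) : ub d n =
    (1 - (d : ℝ) / ((d : ℝ) ^ 2 - 1)) + ((d : ℝ) / ((d : ℝ) ^ 2 - 1)) * (1 / (d : ℝ) ^ 2) ^ n := by
  have hd' : (2 : ℝ) ≤ d := by exact_mod_cast hd
  have hd1 : (d : ℝ) ^ 2 - 1 ≠ 0 := by
    have : (0 : ℝ) < (d : ℝ) ^ 2 - 1 := by nlinarith
    exact this.ne'
  have hd0 : (d : ℝ) ≠ 0 := by positivity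
  induction n with
  | zero => simp [ub]
  | succ n ih =>
    have h : ub d (n + 1) = ub d n - 1 / (d : ℝ) ^ (2 * n + 1) := by
      rw [ub, ub, Finset.sum_range_succ]
      ring
    have e : 1 / (d : ℝ) ^ (2 * n + 1) = (1 / (d : ℝ) ^ 2) ^ n / d := by
      rw [pow_succ, pow_mul, one_div_pow]
      field_simp
    obtain ⟨x, hx⟩ : ∃ x, (1 / (d : ℝ) ^ 2) ^ n = x := ⟨_, rfl⟩
    rw [hx] at ih e
    rw [h, ih, e, pow_succ (1 / (d : ℝ) ^ 2) n, hx]
    field_simp
    ring

theorem ub_tendsto (d : ℕ) (hd : 2 ≤ d) :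
    Tendsto (ub d) atTop (𝓝 (1 - (d : ℝ) / ((d : ℝ) ^ 2 - 1))) := by
  have hd' : (2 : ℝ) ≤ d := by exact_mod_cast hd
  have h1 : Tendsto (fun n : ℕ => (1 / (d : ℝ) ^ 2) ^ n) atTop (𝓝 0) := by
    apply tendsto_pow_atTop_nhds_zero_of_lt_one (by positivity)
    rw [div_lt_one (by positivity)]
    nlinarith
  have h2 := (h1.const_mul ((d : ℝ) / ((d : ℝ) ^ 2 - 1))).const_add
    (1 - (d : ℝ) / ((d : ℝ) ^ 2 - 1))
  rw [mul_zero, add_zero] at h2
  exact h2.congr (fun n => (ub_closed d hd n).symm)

/-! ### the affine group -/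

section affine

variable {F : Type} [Field F]

theorem affGroup_le : affGroup F ≤ treeAut F := by
  rintro g ⟨a, b, rfl⟩
  refine ⟨fun v => act_length _ _ _, fun v w => ⟨fun h => act_prefix _ _ h, fun h => ?_⟩⟩
  have h1 := act_prefix ((a⁻¹ : (PowerSeries F)ˣ) : PowerSeries F)
    (-(((a⁻¹ : (PowerSeries F)ˣ) : PowerSeries F) * b)) h
  have e : ∀ u, act ((a⁻¹ : (PowerSeries F)ˣ) : PowerSeries F)
      (-(((a⁻¹ : (PowerSeries F)ˣ) : PowerSeries F) * b)) (aff a b u) = u :=
    fun u => (aff a b).symm_apply_apply u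
  rwa [e, e] at h1

theorem affGroup_trans : IsLevelTransitive (affGroup F) := aff_trans

variable [Fintype F]

theorem prop_aff (n : ℕ) : proportion (affGroup F) (n + 1) = ub (Fintype.card F) (n + 1) := by
  classical
  obtain ⟨q, hq⟩ : ∃ q, Fintype.card F = q := ⟨_, rfl⟩
  have hq2 : 2 ≤ q := by
    rw [← hq]
    exact Fintype.one_lt_card
  let Θ : (Fin (n + 1) → F) × (Fin (n + 1) → F) → ({v : List F // v.length = n + 1} → List F) :=
    fun x v => act (1 + pol x.1) (pol x.2) v.1
  have hΘ : Function.Injective Θ := by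
    intro x y hxy
    have h0 := congrFun hxy ⟨List.replicate (n + 1) 0, by simp⟩
    have h1 := congrFun hxy ⟨1 :: List.replicate n 0, by simp⟩
    have s0 : ser (List.replicate (n + 1) (0 : F)) = 0 := by
      ext i
      rw [coeff_ser, map_zero, List.getD_eq_getElem?_getD, List.getElem?_replicate]
      split_ifs <;> rfl
    have s1 : ser (1 :: List.replicate n (0 : F)) = 1 := by
      ext i
      rw [coeff_ser, PowerSeries.coeff_one]
      cases i with
      | zero => simp
      | succ i =>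
        rw [List.getD_cons_succ, List.getD_eq_getElem?_getD, List.getElem?_replicate,
          if_neg (Nat.succ_ne_zero i)]
        split_ifs <;> rfl
    have hb : x.2 = y.2 := by
      funext i
      have e := congrArg (fun l : List F => l.getD (i : ℕ) 0) h0
      have e' : (act (1 + pol x.1) (pol x.2) (List.replicate (n + 1) (0 : F))).getD (i : ℕ) 0 =
        (act (1 + pol y.1) (pol y.2) (List.replicate (n + 1) (0 : F))).getD (i : ℕ) 0 := e
      rw [getD_act _ _ _ _ (by rw [List.length_replicate]; exact i.2),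
        getD_act _ _ _ _ (by rw [List.length_replicate]; exact i.2), s0, mul_zero, mul_zero, zero_add,
        zero_add, coeff_pol, coeff_pol] at e'
      exact e'
    have hc : x.1 = y.1 := by
      funext i
      have e := congrArg (fun l : List F => l.getD (i : ℕ) 0) h1
      have e' : (act (1 + pol x.1) (pol x.2) (1 :: List.replicate n (0 : F))).getD (i : ℕ) 0 =
        (act (1 + pol y.1) (pol y.2) (1 :: List.replicate n (0 : F))).getD (i : ℕ) 0 := e
      rw [getD_act _ _ _ _ (by rw [List.length_cons, List.length_replicate]; exact i.2),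
        getD_act _ _ _ _ (by rw [List.length_cons, List.length_replicate]; exact i.2), s1, mul_one, mul_one, map_add,
        map_add, map_add, map_add, coeff_pol, coeff_pol, coeff_pol, coeff_pol, hb] at e'
      exact add_left_cancel (add_right_cancel e')
    exact Prod.ext hc hb
  set S : Finset F := Finset.univ.erase (-1) with hS
  have hSc : S.card = q - 1 := by
    rw [hS, Finset.card_erase_of_mem (Finset.mem_univ _), Finset.card_univ, hq]
  have hS0 : (0 : F) ∈ S := by
    rw [hS, Finset.mem_erase]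
    refine ⟨?_, Finset.mem_univ _⟩
    intro h
    have : (1 : F) = 0 := by linear_combination h
    exact one_ne_zero this
  have hlev : levelGroup (affGroup F) (n + 1) =
      Θ '' ((Finset.univ.filter (fun x : (Fin (n + 1) → F) × (Fin (n + 1) → F) => x.1 0 ∈ S) :
        Finset _) : Set _) := by
    ext f
    constructor
    · rintro ⟨g, ⟨a, b, rfl⟩, rfl⟩
      refine ⟨(fun i => PowerSeries.coeff (i : ℕ) (a - 1 : PowerSeries F),
        fun i => PowerSeries.coeff (i : ℕ) b), ?_, ?_⟩
      · rw [Finset.mem_coe, Finset.mem_filter, hS, Finset.mem_erase]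
        refine ⟨Finset.mem_univ _, ?_, Finset.mem_univ _⟩
        intro h
        have h1 : PowerSeries.constantCoeff (a : PowerSeries F) ≠ 0 :=
          (PowerSeries.isUnit_iff_constantCoeff.1 a.isUnit).ne_zero
        apply h1
        have h' : PowerSeries.coeff 0 (a - 1 : PowerSeries F) = -1 := h
        rw [map_sub, PowerSeries.coeff_one, if_pos rfl,
          PowerSeries.coeff_zero_eq_constantCoeff_apply] at h'
        linear_combination h'
      · funext v
        show act (1 + pol _) (pol _) v.1 = act a b v.1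
        apply act_congr _ _ v.1 v.2
        · intro i hi
          have := coeff_pol (fun i : Fin (n + 1) =>
            PowerSeries.coeff (i : ℕ) ((a : PowerSeries F) - 1)) ⟨i, hi⟩
          rw [map_add]
          rw [show ((⟨i, hi⟩ : Fin (n + 1)) : ℕ) = i from rfl] at this
          rw [this, map_sub]
          ring
        · intro i hi
          exact coeff_pol (fun i : Fin (n + 1) => PowerSeries.coeff (i : ℕ) b) ⟨i, hi⟩
    · rintro ⟨x, hx, rfl⟩
      rw [Finset.mem_coe, Finset.mem_filter, hS, Finset.mem_erase] at hx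
      have hu : IsUnit (1 + pol x.1) := by
        rw [PowerSeries.isUnit_iff_constantCoeff, isUnit_iff_ne_zero]
        intro h
        apply hx.2.1
        rw [map_add, map_one, ← PowerSeries.coeff_zero_eq_constantCoeff_apply] at h
        have := coeff_pol x.1 0
        rw [show ((0 : Fin (n + 1)) : ℕ) = 0 from rfl] at this
        rw [this] at h
        linear_combination h
      obtain ⟨a, ha⟩ := hu
      refine ⟨aff a (pol x.2), ⟨a, _, rfl⟩, ?_⟩
      funext v
      show act a (pol x.2) v.1 = act (1 + pol x.1) (pol x.2) v.1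
      rw [ha]
  have hfix : {f | f ∈ levelGroup (affGroup F) (n + 1) ∧ ∃ v, f v = v.1} =
      Θ '' ((Finset.univ.filter (fun x : (Fin (n + 1) → F) × (Fin (n + 1) → F) =>
        x.1 0 ∈ S ∧ SP x.1 x.2) : Finset _) : Set _) := by
    ext f
    rw [Set.mem_ofPred_eq, hlev]
    constructor
    · rintro ⟨⟨x, hx, rfl⟩, v, hv⟩
      rw [Finset.mem_coe, Finset.mem_filter] at hx
      refine ⟨x, ?_, rfl⟩
      rw [Finset.mem_coe, Finset.mem_filter]
      exact ⟨hx.1, hx.2, (act_fix_iff x.1 x.2).1 ⟨v.1, v.2, hv⟩⟩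
    · rintro ⟨x, hx, rfl⟩
      rw [Finset.mem_coe, Finset.mem_filter] at hx
      refine ⟨⟨x, ?_, rfl⟩, ?_⟩
      · rw [Finset.mem_coe, Finset.mem_filter]
        exact ⟨hx.1, hx.2.1⟩
      · obtain ⟨v, hv, hv2⟩ := (act_fix_iff x.1 x.2).2 hx.2.2
        exact ⟨⟨v, hv⟩, hv2⟩
  rw [proportion, hfix, hlev, Set.ncard_image_of_injective _ hΘ, Set.ncard_coe_finset,
    Set.ncard_image_of_injective _ hΘ, Set.ncard_coe_finset, count_gen n S hS0, count_all n S, hSc,
    hq, ub_closed q hq2]
  have hc := cnt_eq (F := F) n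
  rw [cnt, hq] at hc
  obtain ⟨m, hm⟩ : ∃ m, (Finset.univ.filter (fun x : (Fin n → F) × (Fin n → F) => SP x.1 x.2)).card =
    m := ⟨_, rfl⟩
  rw [hm] at hc ⊢
  obtain ⟨r, rfl⟩ : ∃ r, q = r + 2 := ⟨q - 2, by omega⟩
  have e1 : r + 2 - 1 - 1 = r := by omega
  have e2 : r + 2 - 1 = r + 1 := by omega
  rw [e1, e2]
  have hc' : ((r : ℝ) + 2 + 1) * m = (r + 2) ^ (2 * n + 1) + 1 := by exact_mod_cast hc
  have hpow : (0 : ℝ) < (r + 2 : ℝ) ^ (2 * n + 1) := by positivity
  have hm' : (m : ℝ) = ((r + 2) ^ (2 * n + 1) + 1) / ((r : ℝ) + 3) := by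
    rw [eq_div_iff (by positivity), ← hc']
    ring
  push_cast
  rw [hm']
  have e3 : ((r : ℝ) + 2) ^ 2 - 1 = (r + 1) * (r + 3) := by ring
  have e4 : (1 / ((r : ℝ) + 2) ^ 2) ^ (n + 1) = 1 / ((r + 2) * (r + 2) ^ (2 * n + 1)) := by
    rw [one_div_pow, ← pow_mul]
    congr 1
    ring
  rw [e3, e4]
  field_simp
  ring

end affine

/-- **The fixed-point proportions of level-transitive groups.** -/
theorem result :
    (∀ (X : Type) [Fintype X], 2 ≤ Fintype.card X →
      ∃ α : ℝ, α ∈ Set.Icc (0 : ℝ) 1 ∧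
        ∀ G ≤ treeAut X, IsLevelTransitive G → ¬ HasFPP G α) ∧
    (∀ (X : Type) [Fintype X], 2 ≤ Fintype.card X →
      ∀ G ≤ treeAut X, IsLevelTransitive G → ∀ α : ℝ, HasFPP G α →
        α ≤ 1 - (Fintype.card X : ℝ) / ((Fintype.card X : ℝ) ^ 2 - 1)) ∧
    (∀ (X : Type) [Fintype X], 2 ≤ Fintype.card X →
      ((∃ G ≤ treeAut X, IsLevelTransitive G ∧
        HasFPP G (1 - (Fintype.card X : ℝ) / ((Fintype.card X : ℝ) ^ 2 - 1))) ↔
          IsPrimePow (Fintype.card X))) := by
  have hbound : ∀ (X : Type) [Fintype X], 2 ≤ Fintype.card X →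
      ∀ G ≤ treeAut X, IsLevelTransitive G → ∀ α : ℝ, HasFPP G α →
        α ≤ 1 - (Fintype.card X : ℝ) / ((Fintype.card X : ℝ) ^ 2 - 1) := by
    intro X _ hX G hG hT α hα
    refine le_of_tendsto_of_tendsto (hα.comp (tendsto_add_atTop_nat 1))
      ((ub_tendsto _ hX).comp (tendsto_add_atTop_nat 1)) ?_
    exact Filter.Eventually.of_forall (fun n => (main_chain hX G hG hT n).1)
  refine ⟨?_, hbound, ?_⟩
  · intro X _ hX
    refine ⟨1, by simp, fun G hG hT hα => ?_⟩
    have h := hbound X hX G hG hT 1 hα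
    have hX' : (2 : ℝ) ≤ Fintype.card X := by exact_mod_cast hX
    have : 0 < (Fintype.card X : ℝ) / ((Fintype.card X : ℝ) ^ 2 - 1) :=
      div_pos (by linarith) (by nlinarith)
    linarith
  · intro X _ hX
    constructor
    · rintro ⟨G, hG, hT, hα⟩
      by_contra hnp
      have h1 := le_of_tendsto_of_tendsto (hα.comp (tendsto_add_atTop_nat 1))
        (((ub_tendsto _ hX).comp (tendsto_add_atTop_nat 1)).sub_const
          (1 / (Fintype.card X * ((Fintype.card X).factorial : ℝ))))
        (Filter.Eventually.of_forall (fun n => (main_chain hX G hG hT n).2 hnp))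
      have hX' : (0 : ℝ) < Fintype.card X := by
        have : 0 < Fintype.card X := by omega
        exact_mod_cast this
      have hf : (0 : ℝ) < (Fintype.card X).factorial := by
        exact_mod_cast Nat.factorial_pos _
      have : 0 < 1 / (Fintype.card X * ((Fintype.card X).factorial : ℝ)) := by positivity
      linarith
    · intro hpp
      obtain ⟨hF⟩ := Fintype.nonempty_field_iff.2 hpp
      refine ⟨affGroup X, affGroup_le, affGroup_trans, ?_⟩
      unfold HasFPP
      rw [← tendsto_add_atTop_iff_nat 1]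
      refine ((ub_tendsto _ hX).comp (tendsto_add_atTop_nat 1)).congr (fun n => ?_)
      exact (prop_aff n).symm

end Pool.Agent.Results.MP_80cb54_al.LevelTransitive
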